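import Pool.Agent.W642.RP.Main

/-!
# A separable metrizable, rectifiable paratopological group that is not homeomorphic to any
topological group

Answer to Q2 of MP_f8fbfa_gt.
-/

set_option autoImplicit false

open Set Topology TopologicalSpace

namespace Pool.Agent.Results.MP_f8fbfa_gt.Metrizable

/-- `X` is rectifiable: for some point `e` there is a homeomorphism of `X × X` that preserves the
first coordinate and maps `(x, x)` to `(x, e)` for all `x`. -/
def Rectifiable (X : Type) [TopologicalSpace X] : Prop :=
  ∃ (φ : (X × X) ≃ₜ (X × X)) (e : X), (∀ p : X × X, (φ p).1 = p.1) ∧ ∀ x : X, φ (x, x) = (x, e)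

/-- `X` is homeomorphic to a topological group. -/
def HomeoTopGroup (X : Type) [TopologicalSpace X] : Prop :=
  ∃ (H : Type) (_ : Group H) (_ : TopologicalSpace H), IsTopologicalGroup H ∧ Nonempty (X ≃ₜ H)

/-- Q2: every Tychonoff paratopological group whose underlying space is rectifiable is homeomorphic
to a topological group. -/
def Q2 : Prop :=
  ∀ (G : Type) [Group G] [TopologicalSpace G] [ContinuousMul G] [T35Space G],
    Rectifiable G → HomeoTopGroup G

open Pool.Agent.W642.RP in
theorem secondCountable (G : Submodule ℚ V) : SecondCountableTopology (GT G) := by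
  have hb : IsTopologicalBasis
      (Set.range fun p : ℕ × D => {z : GT G | c p.1 (vl z) = (p.2 : V)}) := by
    apply isTopologicalBasis_of_isOpen_of_nhds
    · rintro _ ⟨p, rfl⟩
      exact box_open p.1 _
    · intro x U hx hU
      obtain ⟨n, hn⟩ := isOpen_iff'.1 hU x hx
      exact ⟨_, ⟨(n, ⟨c n (vl x), c_mem_D n (vl x)⟩), rfl⟩, rfl, fun z hz => hn z hz⟩
  exact hb.secondCountableTopology (Set.countable_range _)

open Pool.Agent.W642.RP in
theorem clopenBasis (G : Submodule ℚ V) : IsTopologicalBasis {s : Set (GT G) | IsClopen s} := by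
  apply isTopologicalBasis_of_isOpen_of_nhds
  · intro s hs
    exact hs.isOpen
  · intro x U hx hU
    obtain ⟨n, hn⟩ := isOpen_iff'.1 hU x hx
    exact ⟨_, ⟨box_closed n (c n (vl x)), box_open n (c n (vl x))⟩, rfl, fun z hz => hn z hz⟩

/-- There is an abelian paratopological group `G` whose space is separable (second countable),
metrizable, zero-dimensional and rectifiable, but not homeomorphic to any topological group. Hence
Q2 has a negative answer. -/
theorem result :
    (∃ (G : Type) (_ : CommGroup G) (_ : TopologicalSpace G), ContinuousMul G ∧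
      MetrizableSpace G ∧ SecondCountableTopology G ∧
      IsTopologicalBasis {s : Set G | IsClopen s} ∧ Rectifiable G ∧ ¬ HomeoTopGroup G) ∧
    ¬ Q2 := by
  have main : ∃ (G : Type) (_ : CommGroup G) (_ : TopologicalSpace G), ContinuousMul G ∧
      MetrizableSpace G ∧ SecondCountableTopology G ∧
      IsTopologicalBasis {s : Set G | IsClopen s} ∧ Rectifiable G ∧ ¬ HomeoTopGroup G := by
    obtain ⟨G, hD, hG⟩ := W642.RP.main
    have h2 := secondCountable G
    refine ⟨W642.RP.GT G, inferInstance, inferInstance, inferInstance, inferInstance, h2,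
      clopenBasis G, W642.RP.rectifiable hD, ?_⟩
    rintro ⟨H, i1, i2, h3, h4⟩
    exact hG H i1 i2 h3 h4
  refine ⟨main, fun hQ => ?_⟩
  obtain ⟨G, _, _, h1, h2, h3, -, h5, h6⟩ := main
  let _ := TopologicalSpace.metrizableSpaceMetric G
  exact h6 (hQ G h5)

end Pool.Agent.Results.MP_f8fbfa_gt.Metrizable
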